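import Pool.Agent.SPN.Itv

/-! # MP_613dde_gt: the set of ratios is an interval ending at 1 -/

namespace Pool.Agent.Results.MP_613dde_gt.Interval

open Pool.Agent.SPN

/-- If a planar simple triod has surjective span at most `t` times its span and `t ≤ 1`, then some planar
simple triod has positive span and surjective span exactly `t` times its span. -/
theorem result (X : Set ℂ) (γ : Fin 3 → ℝ → ℂ) (h : Triod X γ) (t : ℝ) (ht : t ≤ 1)
    (hX : sspn X ≤ t * spn X) :
    ∃ (Y : Set ℂ) (δ : Fin 3 → ℝ → ℂ), Triod Y δ ∧ 0 < spn Y ∧ sspn Y = t * spn Y :=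
  main_interval h ht hX

end Pool.Agent.Results.MP_613dde_gt.Interval
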