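import Pool.Agent.SPN.SPNorm

/-! # MP_613dde_gt: planar simple triods with two straight legs and an arbitrary third leg -/

namespace Pool.Agent.Results.MP_613dde_gt.StraightPair

open Set Pool.Agent.SPN

/-- If two legs of a planar simple triod are straight, make an angle greater than `90°` (`180°` allowed) and
the third leg, which is arbitrary, does not start inside the triangle spanned by them, then the surjective
span equals the span. -/
theorem result (X : Set ℂ) (γ : Fin 3 → ℝ → ℂ) (h : Triod X γ)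
    (h0 : γ 0 '' Icc 0 1 = segment ℝ (γ 0 0) (γ 0 1))
    (h1 : γ 1 '' Icc 0 1 = segment ℝ (γ 0 0) (γ 1 1))
    (hang : ((γ 1 1 - γ 0 0) * (starRingEnd ℂ) (γ 0 1 - γ 0 0)).re < 0)
    (h2 : ∃ ε > 0, ∀ t ∈ Ioo 0 ε, γ 2 t ∉ convexHull ℝ {γ 0 0, γ 0 1, γ 1 1}) :
    sspn X = spn X :=
  straight_pair h h0 h1 hang h2

end Pool.Agent.Results.MP_613dde_gt.StraightPair
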