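import Pool.Agent.SPN.Fin

/-! # MP_613dde_gt: the symmetric span is at most the surjective span -/

namespace Pool.Agent.Results.MP_613dde_gt.SymmetricSpan

open Pool.Agent.SPN

/-- For a planar simple triod the symmetric span is at most the surjective span. -/
theorem result (X : Set ℂ) (γ : Fin 3 → ℝ → ℂ) (h : Triod X γ) : symspn X ≤ sspn X :=
  sym_le h

end Pool.Agent.Results.MP_613dde_gt.SymmetricSpan
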