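import Pool.Agent.SPN.Cen

/-! # MP_613dde_gt: planar simple triods without fat hooks at the branch point -/

namespace Pool.Agent.Results.MP_613dde_gt.TameCentre

open Pool.Agent.SPN

/-- If `R` is smaller than the span of a planar simple triod `X` and every leg of `X` has no `R`-hook, or is
at distance `≥ R` from the branch point only on an interval, or is tame at the scale `R`, then `R` is at most
the surjective span of `X`. -/
theorem result (X : Set ℂ) (γ : Fin 3 → ℝ → ℂ) (h : Triod X γ) (R : ℝ) (hR : R < spn X)
    (hT : ∀ i, NoHook R (γ i) ∨ OneFar R (γ i) ∨ Tame R (γ i)) : R ≤ sspn X :=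
  main_tame h hR fun i => (hT i).elim tame_of_noHook fun h' => h'.elim tame_of_oneFar id

end Pool.Agent.Results.MP_613dde_gt.TameCentre
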